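import Mathlib
import Pool.Agent.X72.PartRatio

/-! Almost no partition is associated to a numerical semigroup. -/

namespace Pool.Agent.Results.MP_8c5ed8_co.LimitZero

open Pool.Agent.X72.PartCount

/-- The partition attached to a numerical set `S`: one part `#{s ∈ S : s < g}` for each gap `g`. -/
noncomputable def phi (S : Set ℕ) (h : Sᶜ.Finite) : Multiset ℕ :=
  h.toFinset.val.map fun g => {s | s ∈ S ∧ s < g}.ncard

/-- `l` is associated to a numerical semigroup. -/
def IsAssoc (l : Multiset ℕ) : Prop :=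
  ∃ (S : Set ℕ) (h : Sᶜ.Finite), 0 ∈ S ∧ (∀ a ∈ S, ∀ b ∈ S, a + b ∈ S) ∧ l = phi S h

/-- `P(n)`: the number of partitions (multisets of positive integers) of size at most `n`. -/
noncomputable def totalCount (n : ℕ) : ℕ :=
  {l : Multiset ℕ | (∀ x ∈ l, 0 < x) ∧ l.sum ≤ n}.ncard

/-- `S'(n)`: the number of partitions of size at most `n` that are associated to numerical
semigroups. -/
noncomputable def assocCount (n : ℕ) : ℕ :=
  {l : Multiset ℕ | (∀ x ∈ l, 0 < x) ∧ l.sum ≤ n ∧ IsAssoc l}.ncard

/-- elements below an element of `S`, in terms of the parts -/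
theorem parts_below (S : Set ℕ) (h : Sᶜ.Finite) (h0 : 0 ∈ S) (x : ℕ) (hx : x ∈ S) :
    {s | s ∈ S ∧ s < x}.ncard +
      ∑ i ∈ Finset.Icc 1 {s | s ∈ S ∧ s < x}.ncard, (phi S h).count i = x := by
  classical
  have hfin : ∀ y : ℕ, {s | s ∈ S ∧ s < y}.Finite := fun y =>
    (Set.finite_lt_nat y).subset fun _ h => h.2
  -- the number of gaps below `x`
  have h1 : ∑ i ∈ Finset.Icc 1 {s | s ∈ S ∧ s < x}.ncard, (phi S h).count i =
      (h.toFinset.filter fun g => g < x).card := by
    have hf : (h.toFinset.filter fun g => g < x) = (h.toFinset.filter fun g =>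
        {s | s ∈ S ∧ s < g}.ncard ∈ Finset.Icc 1 {s | s ∈ S ∧ s < x}.ncard) := by
      ext g
      simp only [Finset.mem_filter, Set.Finite.mem_toFinset, Finset.mem_Icc]
      constructor
      · rintro ⟨hg, hgx⟩
        refine ⟨hg, ?_, ?_⟩
        · have hg0 : 0 < g := by
            rcases Nat.eq_zero_or_pos g with e | e
            · subst e; exact absurd h0 hg
            · exact e
          have : 0 < {s | s ∈ S ∧ s < g}.ncard := by
            rw [Set.ncard_pos (hfin g)]
            exact ⟨0, h0, hg0⟩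
          omega
        · exact Set.ncard_le_ncard (fun s hs => ⟨hs.1, hs.2.trans hgx⟩) (hfin x)
      · rintro ⟨hg, -, hle⟩
        refine ⟨hg, ?_⟩
        by_contra hge
        push Not at hge
        have hne : g ≠ x := fun e => hg (e ▸ hx)
        have hlt : x < g := lt_of_le_of_ne hge hne.symm
        have : {s | s ∈ S ∧ s < x}.ncard < {s | s ∈ S ∧ s < g}.ncard := by
          apply Set.ncard_lt_ncard _ (hfin g)
          refine ⟨fun s hs => ⟨hs.1, hs.2.trans hlt⟩, fun hsub => ?_⟩
          exact absurd (hsub ⟨hx, hlt⟩).2 (lt_irrefl x)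
        omega
    rw [hf, Finset.card_eq_sum_card_fiberwise (f := fun g => {s | s ∈ S ∧ s < g}.ncard)
      (t := Finset.Icc 1 {s | s ∈ S ∧ s < x}.ncard) (by
        intro g hg
        rw [Finset.mem_coe, Finset.mem_filter] at hg
        exact hg.2)]
    apply Finset.sum_congr rfl
    intro i hi
    unfold phi
    rw [Multiset.count_map]
    have : (Multiset.filter (fun a => i = {s | s ∈ S ∧ s < a}.ncard) h.toFinset.val) =
        (h.toFinset.filter fun a => i = {s | s ∈ S ∧ s < a}.ncard).val := rfl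
    rw [this, Finset.card_val]
    congr 1
    ext g
    simp only [Finset.mem_filter]
    constructor
    · rintro ⟨a, b⟩
      exact ⟨⟨a, b ▸ hi⟩, b.symm⟩
    · rintro ⟨⟨a, -⟩, b⟩
      exact ⟨a, b.symm⟩
  rw [h1]
  have h2 : {s | s ∈ S ∧ s < x}.ncard = ((Finset.range x).filter fun s => s ∈ S).card := by
    rw [← Set.ncard_coe_finset]
    congr 1
    ext s
    simp [and_comm]
  have h3 : (h.toFinset.filter fun g => g < x) = (Finset.range x).filter fun s => ¬ s ∈ S := by
    ext g
    simp [and_comm]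
  rw [h2, h3, Finset.card_filter_add_card_filter_not, Finset.card_range]

/-- the consequence of `2 s₁ ∈ S` -/
theorem assoc_key (l : Multiset ℕ) (hl : IsAssoc l) :
    ∃ j, 2 ≤ j ∧ l.count 1 + 2 = j + ∑ i ∈ Finset.Icc 2 j, l.count i := by
  classical
  obtain ⟨S, h, h0, hadd, rfl⟩ := hl
  have hfin : ∀ y : ℕ, {s | s ∈ S ∧ s < y}.Finite := fun y =>
    (Set.finite_lt_nat y).subset fun _ h => h.2
  -- the least positive element
  have hex : ∃ s, s ∈ S ∧ 0 < s := by
    obtain ⟨M, hM⟩ := h.bddAbove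
    refine ⟨M + 1, ?_, Nat.succ_pos M⟩
    by_contra hcon
    have := hM hcon
    omega
  obtain ⟨hs1, hs2⟩ := Nat.find_spec hex
  have hmin : ∀ t, t ∈ S → 0 < t → Nat.find hex ≤ t := fun t h1 h2 => Nat.find_min' hex ⟨h1, h2⟩
  generalize Nat.find hex = a at hs1 hs2 hmin
  have c1 : {s | s ∈ S ∧ s < a}.ncard = 1 := by
    have : {s | s ∈ S ∧ s < a} = {0} := by
      ext s
      simp only [Set.mem_ofPred_eq, Set.mem_singleton_iff]
      constructor
      · rintro ⟨h1, h2⟩
        by_contra hne
        have := hmin s h1 (Nat.pos_of_ne_zero hne)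
        omega
      · rintro rfl
        exact ⟨h0, hs2⟩
    rw [this, Set.ncard_singleton]
  have p1 := parts_below S h h0 a hs1
  rw [c1, Finset.Icc_self, Finset.sum_singleton] at p1
  have p2 := parts_below S h h0 (a + a) (hadd a hs1 a hs1)
  have hj : 2 ≤ {s | s ∈ S ∧ s < a + a}.ncard := by
    have hsub : ({0, a} : Set ℕ) ⊆ {s | s ∈ S ∧ s < a + a} := by
      rintro s (rfl | hs)
      · exact ⟨h0, by omega⟩
      · rw [Set.mem_singleton_iff] at hs
        subst hs
        exact ⟨hs1, by omega⟩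
    have := Set.ncard_le_ncard hsub (hfin _)
    rw [Set.ncard_pair hs2.ne] at this
    exact this
  refine ⟨_, hj, ?_⟩
  have h3 : Finset.Icc 1 {s | s ∈ S ∧ s < a + a}.ncard =
      insert 1 (Finset.Icc 2 {s | s ∈ S ∧ s < a + a}.ncard) := by
    ext i
    simp only [Finset.mem_Icc, Finset.mem_insert]
    omega
  rw [h3, Finset.sum_insert (by simp)] at p2
  omega

theorem assocCount_le (K : ℕ) (hK : 2 ≤ K) (n : ℕ) :
    (assocCount n : ℝ) / P n ≤ (K + 1) * ((p n : ℝ) / P n) + 2 / (K + 1) := by
  classical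
  have hsub : {l : Multiset ℕ | (∀ x ∈ l, 0 < x) ∧ l.sum ≤ n ∧ IsAssoc l} ⊆
      (⋃ j ∈ Finset.Icc 2 K, {l | l ∈ Pset n ∧
        l.count 1 + 2 = j + ∑ i ∈ Finset.Icc 2 j, l.count i}) ∪ Qset K n := by
    rintro l ⟨h1, h2, h3⟩
    obtain ⟨j, hj, hj2⟩ := assoc_key l h3
    rcases Nat.lt_or_ge K j with hlt | hge
    · right
      refine ⟨⟨h1, h2⟩, ?_⟩
      have : ∑ i ∈ Finset.Icc 2 K, l.count i ≤ ∑ i ∈ Finset.Icc 2 j, l.count i :=
        Finset.sum_le_sum_of_subset (Finset.Icc_subset_Icc_right hlt.le)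
      omega
    · left
      simp only [Set.mem_iUnion, exists_prop]
      exact ⟨j, Finset.mem_Icc.mpr ⟨hj, hge⟩, ⟨h1, h2⟩, hj2⟩
  have hcase : ∀ j ∈ Finset.Icc 2 K, {l | l ∈ Pset n ∧
      l.count 1 + 2 = j + ∑ i ∈ Finset.Icc 2 j, l.count i}.ncard ≤ p n := by
    intro j _
    refine le_trans ?_ (noOnes n)
    apply Set.ncard_le_ncard_of_injOn (fun l => l.filter fun i => ¬ i = 1) _ _
      ((Pset_finite n).subset fun _ h => h.1)
    · rintro l ⟨⟨h1, h2⟩, -⟩
      refine ⟨⟨fun x hx => h1 x (Multiset.mem_filter.mp hx).1, ?_⟩, ?_⟩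
      · have h3 := Multiset.filter_add_not (fun i => i = 1) l
        have h4 := congrArg Multiset.sum h3
        rw [Multiset.sum_add] at h4
        omega
      · rw [Multiset.count_eq_zero]
        intro h
        exact (Multiset.mem_filter.mp h).2 rfl
    · rintro l ⟨-, hl⟩ l' ⟨-, hl'⟩ h
      have key : ∀ i, i ≠ 1 → l.count i = l'.count i := by
        intro i hi
        have := congrArg (Multiset.count i) h
        simp only at this
        rwa [Multiset.count_filter_of_pos (p := fun i => ¬ i = 1) hi,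
          Multiset.count_filter_of_pos (p := fun i => ¬ i = 1) hi] at this
      ext i
      by_cases hi : i = 1
      · subst hi
        have : ∑ i ∈ Finset.Icc 2 j, l.count i = ∑ i ∈ Finset.Icc 2 j, l'.count i :=
          Finset.sum_congr rfl fun i hi => key i (by have := (Finset.mem_Icc.mp hi).1; omega)
        omega
      · exact key i hi
  have h1 : assocCount n ≤ (K - 1) * p n + (Qset K n).ncard := by
    unfold assocCount
    refine (Set.ncard_le_ncard hsub ?_).trans ((Set.ncard_union_le _ _).trans ?_)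
    · apply Set.Finite.union
      · exact Set.Finite.biUnion (Finset.finite_toSet _) fun j _ =>
          (Pset_finite n).subset fun _ h => h.1
      · exact (Pset_finite n).subset fun _ h => h.1
    · apply Nat.add_le_add_right
      refine (Finset.set_ncard_biUnion_le _ _).trans ((Finset.sum_le_sum hcase).trans ?_)
      rw [Finset.sum_const, Nat.card_Icc, smul_eq_mul]
      exact Nat.mul_le_mul_right _ (by omega)
  have h2 := Qset_le K hK n
  have hP : (0 : ℝ) < P n := by exact_mod_cast P_pos n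
  have hK' : (0 : ℝ) < (K : ℝ) + 1 := by positivity
  have h3 : (K + 1) * assocCount n ≤ (K + 1) * ((K + 1) * p n) + 2 * P n := by
    calc (K + 1) * assocCount n ≤ (K + 1) * ((K - 1) * p n + (Qset K n).ncard) :=
          Nat.mul_le_mul_left _ h1
      _ = (K + 1) * ((K - 1) * p n) + (K + 1) * (Qset K n).ncard := by ring
      _ ≤ (K + 1) * ((K - 1) * p n) + ((K + 1) * (2 * p n) + 2 * P n) := Nat.add_le_add_left h2 _
      _ = (K + 1) * ((K - 1 + 2) * p n) + 2 * P n := by ring
      _ = (K + 1) * ((K + 1) * p n) + 2 * P n := by rw [show K - 1 + 2 = K + 1 by omega]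
  have h4 : ((K : ℝ) + 1) * assocCount n ≤ (K + 1) * ((K + 1) * p n) + 2 * P n := by
    exact_mod_cast h3
  rw [div_le_iff₀ hP]
  have h5 : ((K + 1 : ℝ) * ((p n : ℝ) / P n) + 2 / (K + 1)) * P n =
      (K + 1) * p n + 2 / (K + 1) * P n := by field_simp
  rw [h5, ← mul_le_mul_iff_of_pos_left hK']
  calc ((K : ℝ) + 1) * assocCount n ≤ _ := h4
    _ = ((K : ℝ) + 1) * ((K + 1) * p n + 2 / (K + 1) * P n) := by field_simp

/-- The proportion of the partitions of size at most `n` that are associated to numerical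
semigroups tends to `0`. -/
theorem result :
    Filter.Tendsto (fun n => (assocCount n : ℝ) / totalCount n) Filter.atTop (nhds 0) := by
  have htot : ∀ n, totalCount n = P n := fun n => rfl
  simp only [htot]
  rw [Metric.tendsto_atTop]
  intro ε hε
  obtain ⟨K0, hK0⟩ := exists_nat_gt (4 / ε)
  let K := K0 + 2
  have hK' : (0 : ℝ) < (K : ℝ) + 1 := by positivity
  have hKε : 2 / ((K : ℝ) + 1) < ε / 2 := by
    rw [div_lt_iff₀ hK']
    rw [div_lt_iff₀ hε] at hK0
    have : (K : ℝ) = K0 + 2 := by simp [K]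
    rw [this]
    nlinarith
  have hr := ratio_tendsto
  rw [Metric.tendsto_atTop] at hr
  obtain ⟨N, hN⟩ := hr (ε / (2 * (K + 1))) (by positivity)
  refine ⟨N, fun n hn => ?_⟩
  have h1 := hN n hn
  have h2 : (0 : ℝ) ≤ (p n : ℝ) / P n := by positivity
  rw [Real.dist_eq, sub_zero, abs_of_nonneg h2, lt_div_iff₀ (by positivity)] at h1
  have h3 := assocCount_le K (by omega) n
  have h4 : (0 : ℝ) ≤ (assocCount n : ℝ) / P n := by positivity
  rw [Real.dist_eq, sub_zero, abs_of_nonneg h4]
  nlinarith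

end Pool.Agent.Results.MP_8c5ed8_co.LimitZero
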